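import Pool.Agent.H60.CM.Basic

/-!
# Stable cmc surfaces: row PGR
-/

set_option autoImplicit false

open Set Function MeasureTheory Filter Topology
open scoped Manifold ContDiff Matrix
open Pool.Agent.H60.CM

namespace Pool.Agent.H37.CM

theorem pf_PGR (h1 : T_INV) (h2 : T_PDF) : T_PGR := by
  intro D O ψ hP y hy f g hf hg
  obtain ⟨m00, m01, m10, m11, hm, h⟩ := h2 D O ψ hP y hy
  obtain ⟨-, hx0, hx1⟩ := h V3 D.x D.smx
  obtain ⟨-, hf0, hf1⟩ := h ℝ f hf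
  obtain ⟨-, hg0, hg1⟩ := h ℝ g hg
  have h3 := h1 (dd D.x (ψ y) 0) (dd D.x (ψ y) 1) (D.N (ψ y)) m00 m01 m10 m11
    (dd f (ψ y) 0) (dd f (ψ y) 1) (dd g (ψ y) 0) (dd g (ψ y) 1) hm
  rw [hx0, hx1, hf0, hf1, hg0, hg1]
  simp only [smul_eq_mul]
  exact ⟨h3.1.symm, h3.2.symm⟩

end Pool.Agent.H37.CM
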