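import Pool.Agent.H60.CM.Basic

/-!
# Stable cmc surfaces: row POS
-/

set_option autoImplicit false

open Set Function MeasureTheory Filter Topology
open scoped Manifold ContDiff Matrix
open Pool.Agent.H60.CM

namespace Pool.Agent.H37.CM

theorem cont_cross {X : Type} [TopologicalSpace X] {f g : X → V3} {s : Set X}
    (hf : ContinuousOn f s) (hg : ContinuousOn g s) :
    ContinuousOn (fun y => f y ⨯₃ g y) s := by
  have hf' : ∀ i, ContinuousOn (fun y => f y i) s := fun i => continuousOn_pi.1 hf i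
  have hg' : ∀ i, ContinuousOn (fun y => g y i) s := fun i => continuousOn_pi.1 hg i
  rw [continuousOn_pi]
  intro i
  simp only [cross_apply]
  fin_cases i
  · exact ((hf' 1).mul (hg' 2)).sub ((hf' 2).mul (hg' 1))
  · exact ((hf' 2).mul (hg' 0)).sub ((hf' 0).mul (hg' 2))
  · exact ((hf' 0).mul (hg' 1)).sub ((hf' 1).mul (hg' 0))

theorem cont_dot {X : Type} [TopologicalSpace X] {f g : X → V3} {s : Set X}
    (hf : ContinuousOn f s) (hg : ContinuousOn g s) :
    ContinuousOn (fun y => f y ⬝ᵥ g y) s := by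
  have hf' : ∀ i, ContinuousOn (fun y => f y i) s := fun i => continuousOn_pi.1 hf i
  have hg' : ∀ i, ContinuousOn (fun y => g y i) s := fun i => continuousOn_pi.1 hg i
  unfold dotProduct
  exact continuousOn_finsetSum _ fun i _ => (hf' i).mul (hg' i)

theorem dot_pos {a : V3} (h : a ≠ 0) : 0 < a ⬝ᵥ a := by
  unfold dotProduct
  have h1 : ∃ i, a i ≠ 0 := by
    by_contra hcon
    push Not at hcon
    exact h (funext hcon)
  obtain ⟨i, hi⟩ := h1
  exact Finset.sum_pos' (fun j _ => mul_self_nonneg _) ⟨i, Finset.mem_univ i, mul_self_pos.2 hi⟩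

theorem pf_POS (h1 : T_PAT) (_ : T_ARE) : T_POS := by
  intro D F hF h0 hint p hp
  by_contra hne
  have hpos : 0 < F p := lt_of_le_of_ne (h0 p) (Ne.symm hne)
  have hU : IsOpen {q | F p / 2 < F q} := isOpen_lt continuous_const hF
  obtain ⟨O, ψ, y, hP, hy, hyp, hsub⟩ := h1 D p _ hp hU (by
    show F p / 2 < F p
    linarith)
  have hae : F =ᵐ[D.μ] 0 := (integral_eq_zero_iff_of_nonneg h0 (D.cont_int hF)).1 hint
  have hnull : D.μ (ψ '' O) = 0 := by
    refine measure_mono_null ?_ (ae_iff.1 hae)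
    intro q hq
    have h3 : F p / 2 < F q := hsub hq
    show ¬ F q = 0
    intro h4
    rw [h4] at h3
    linarith
  have hcd : ContDiffOn ℝ ∞ (D.x ∘ ψ) O :=
    contMDiffOn_iff_contDiffOn.1 (D.cmc.x_smooth.comp_contMDiffOn hP.smooth)
  have hcf : ContinuousOn (fderiv ℝ (D.x ∘ ψ)) O :=
    hcd.continuousOn_fderiv_of_isOpen hP.isOpen (by simp)
  have hpd : ∀ i, ContinuousOn (fun y => pd (D.x ∘ ψ) y i) O := fun i =>
    hcf.clm_apply continuousOn_const
  have haw : ContinuousOn (aw (D.x ∘ ψ)) O := by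
    unfold aw
    have h5 := cont_cross (hpd 0) (hpd 1)
    exact (cont_dot h5 h5).sqrt
  have hy0 : 0 < aw (D.x ∘ ψ) y := Real.sqrt_pos.2 (dot_pos (hP.imm y hy))
  have hV : IsOpen (O ∩ aw (D.x ∘ ψ) ⁻¹' Ioi (aw (D.x ∘ ψ) y / 2)) :=
    haw.isOpen_inter_preimage hP.isOpen isOpen_Ioi
  set V : Set E2 := O ∩ aw (D.x ∘ ψ) ⁻¹' Ioi (aw (D.x ∘ ψ) y / 2) with hVdef
  have hyV : y ∈ V := ⟨hy, by
    show aw (D.x ∘ ψ) y / 2 < aw (D.x ∘ ψ) y
    linarith⟩
  have hVO : V ⊆ O := inter_subset_left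
  have h6 := D.cmc.area O ψ hP.isOpen hP.smooth hP.inj hP.imm V hVO hV.measurableSet
  have h7 : D.μ (ψ '' V) = 0 := measure_mono_null (image_mono hVO) hnull
  have h8 : ENNReal.ofReal (aw (D.x ∘ ψ) y / 2) * volume V ≤
      ∫⁻ z in V, ENNReal.ofReal (aw (D.x ∘ ψ) z) := by
    rw [← setLIntegral_const]
    refine setLIntegral_mono' hV.measurableSet fun z hz => ?_
    exact ENNReal.ofReal_le_ofReal (le_of_lt hz.2)
  rw [← h6, h7] at h8
  have h9 : 0 < volume V := hV.measure_pos volume ⟨y, hyV⟩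
  have h10 : 0 < ENNReal.ofReal (aw (D.x ∘ ψ) y / 2) := ENNReal.ofReal_pos.2 (by linarith)
  have h11 : 0 < ENNReal.ofReal (aw (D.x ∘ ψ) y / 2) * volume V :=
    ENNReal.mul_pos h10.ne' h9.ne'
  exact absurd h8 (not_le.2 h11)

end Pool.Agent.H37.CM
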